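import Pool.Agent.N600.DT.Main

/-!
# Triangular sums, reducible lattices, the norm criterion
-/

set_option autoImplicit false

namespace Pool.Agent.N600.DT

open Matrix

section tri

variable {n m : ℕ}

theorem blk_mul (A A' : Matrix (Fin n) (Fin n) ℝ) (C C' : Matrix (Fin n) (Fin m) ℝ)
    (B B' : Matrix (Fin m) (Fin m) ℝ) :
    blk A C B * blk A' C' B' = blk (A * A') (A * C' + C * B') (B * B') := by
  simp only [blk, Matrix.reindex_apply]
  rw [Matrix.submatrix_mul_equiv, Matrix.fromBlocks_multiply]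
  simp

theorem blk_diag (d : Fin n → ℝ) (e : Fin m → ℝ) :
    blk (Matrix.diagonal d) 0 (Matrix.diagonal e) = Matrix.diagonal (Fin.append d e) := by
  ext i j
  refine Fin.addCases (fun i => ?_) (fun i => ?_) i <;>
    refine Fin.addCases (fun j => ?_) (fun j => ?_) j
  · rw [blk_ll]
    simp [Matrix.diagonal_apply, Fin.ext_iff]
  · rw [blk_lr, Matrix.diagonal_apply, if_neg]
    · rfl
    · intro h
      have := congrArg Fin.val h
      simp at this
      omega
  · rw [blk_rl, Matrix.diagonal_apply, if_neg]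
    intro h
    have := congrArg Fin.val h
    simp at this
    omega
  · rw [blk_rr]
    simp [Matrix.diagonal_apply, Fin.ext_iff]

theorem blk_one : blk (1 : Matrix (Fin n) (Fin n) ℝ) 0 (1 : Matrix (Fin m) (Fin m) ℝ) = 1 := by
  rw [← Matrix.diagonal_one, ← Matrix.diagonal_one, blk_diag, ← Matrix.diagonal_one]
  congr 1
  ext i
  refine Fin.addCases (fun i => ?_) (fun i => ?_) i <;> simp

theorem blk_transpose (A : Matrix (Fin n) (Fin n) ℝ) (B : Matrix (Fin m) (Fin m) ℝ) :
    (blk A 0 B)ᵀ = blk Aᵀ 0 Bᵀ := by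
  simp only [blk, Matrix.reindex_apply]
  rw [Matrix.transpose_submatrix, Matrix.fromBlocks_transpose]
  simp

/-- triangular sums of decomposable matrices are decomposable -/
theorem dotu_tri {A : Matrix (Fin n) (Fin n) ℝ} {B : Matrix (Fin m) (Fin m) ℝ}
    (C : Matrix (Fin n) (Fin m) ℝ) (hA : Dotu A) (hB : Dotu B) : Dotu (blk A C B) := by
  obtain ⟨d1, o1, u1, z1, hd1, ho1, hu1, hz1, rfl⟩ := hA
  obtain ⟨d2, o2, u2, z2, hd2, ho2, hu2, hz2, rfl⟩ := hB
  have hz2' : z2.map (Int.cast : ℤ → ℝ) * (z2⁻¹).map (Int.cast : ℤ → ℝ) = 1 := by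
    rw [← map_mul_int, Matrix.mul_nonsing_inv z2 hz2, map_one_int]
  have hz2'' : (z2⁻¹).map (Int.cast : ℤ → ℝ) * z2.map (Int.cast : ℤ → ℝ) = 1 := by
    rw [← map_mul_int, Matrix.nonsing_inv_mul z2 hz2, map_one_int]
  set X : Matrix (Fin n) (Fin m) ℝ :=
    o1ᵀ * (Matrix.diagonal (fun i => (d1 i)⁻¹) * C) * (z2⁻¹).map (Int.cast : ℤ → ℝ) with hX
  refine ⟨Fin.append d1 d2, blk o1 0 o2, blk u1 X u2,
    Matrix.reindex finSumFinEquiv finSumFinEquiv (Matrix.fromBlocks z1 0 0 z2), ?_, ?_, ⟨?_, ?_⟩,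
    ?_, ?_⟩
  · intro i
    refine Fin.addCases (fun i => ?_) (fun i => ?_) i
    · rw [Fin.append_left]
      exact hd1 i
    · rw [Fin.append_right]
      exact hd2 i
  · rw [blk_transpose, blk_mul, ho1, ho2]
    simp [blk_one]
  · intro i
    refine Fin.addCases (fun i => ?_) (fun i => ?_) i
    · rw [blk_ll]
      exact hu1.1 i
    · rw [blk_rr]
      exact hu2.1 i
  · intro i j
    refine Fin.addCases (fun i => ?_) (fun i => ?_) i <;>
      refine Fin.addCases (fun j => ?_) (fun j => ?_) j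
    · intro hij
      rw [blk_ll]
      exact hu1.2 i j (by rw [Fin.lt_def] at hij ⊢; simpa using hij)
    · intro hij
      exfalso
      rw [Fin.lt_def] at hij
      simp at hij
      omega
    · intro _
      exact blk_rl _ _ _ _ _
    · intro hij
      rw [blk_rr]
      exact hu2.2 i j (by rw [Fin.lt_def] at hij ⊢; simpa using hij)
  · rw [Matrix.det_reindex_self, Matrix.det_fromBlocks_zero₂₁]
    exact hz1.mul hz2
  · have hzb : (Matrix.reindex finSumFinEquiv finSumFinEquiv (Matrix.fromBlocks z1 0 0 z2)).map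
        (Int.cast : ℤ → ℝ) = blk (z1.map (Int.cast : ℤ → ℝ)) 0 (z2.map (Int.cast : ℤ → ℝ)) := by
      ext i j
      refine Fin.addCases (fun i => ?_) (fun i => ?_) i <;>
        refine Fin.addCases (fun j => ?_) (fun j => ?_) j
      · rw [blk_ll]
        simp
      · rw [blk_lr]
        simp
      · rw [blk_rl]
        simp
      · rw [blk_rr]
        simp
    rw [hzb, ← blk_diag, blk_mul, blk_mul, blk_mul]
    congr 1
    simp only [Matrix.mul_zero, Matrix.zero_mul, add_zero, zero_add]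
    rw [hX]
    have e1 : Matrix.diagonal d1 * o1 * (o1ᵀ * (Matrix.diagonal (fun i => (d1 i)⁻¹) * C) *
        (z2⁻¹).map (Int.cast : ℤ → ℝ)) * z2.map (Int.cast : ℤ → ℝ) =
        Matrix.diagonal d1 * (o1 * o1ᵀ) * (Matrix.diagonal (fun i => (d1 i)⁻¹) * C) *
        ((z2⁻¹).map (Int.cast : ℤ → ℝ) * z2.map (Int.cast : ℤ → ℝ)) := by
      simp only [Matrix.mul_assoc]
    rw [e1, hz2'', Matrix.mul_one, mul_eq_one_comm.1 ho1, Matrix.mul_one,
      ← Matrix.mul_assoc, Matrix.diagonal_mul_diagonal]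
    have : (Matrix.diagonal fun i => d1 i * (d1 i)⁻¹) = (1 : Matrix (Fin n) (Fin n) ℝ) := by
      rw [← Matrix.diagonal_one]
      congr 1
      ext i
      exact mul_inv_cancel₀ (hd1 i)
    rw [this, Matrix.one_mul]

end tri

/-! ## Reducible lattices -/

/-- after a permutation of the coordinates and a change of the basis of the lattice the matrix is
block upper triangular with diagonal blocks of sizes `k`, `n - k`, `0 < k < n`; equivalently the
lattice `M ℤ^n` contains `k` linearly independent vectors of some coordinate subspace of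
dimension `k` -/
def Reducible {n : ℕ} (M : Matrix (Fin n) (Fin n) ℝ) : Prop :=
  ∃ (k : ℕ) (σ : Equiv.Perm (Fin n)) (z : Matrix (Fin n) (Fin n) ℤ), 0 < k ∧ k < n ∧
    IsUnit z.det ∧ ∀ i j : Fin n, (j : ℕ) < k → k ≤ (i : ℕ) →
      (M * z.map (Int.cast : ℤ → ℝ)) (σ i) j = 0

theorem dotu_of_rows {n : ℕ} {M : Matrix (Fin n) (Fin n) ℝ} (σ : Equiv.Perm (Fin n))
    (h : Dotu (M.submatrix σ id)) : Dotu M := by
  obtain ⟨d, o, u, z, hd, ho, hu, hz, h⟩ := h
  refine ⟨fun i => d (σ.symm i), o.submatrix σ.symm id, u, z, fun i => hd _, ?_, hu, hz, ?_⟩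
  · rw [Matrix.transpose_submatrix]
    have := Matrix.submatrix_mul_equiv oᵀ o id σ.symm id
    rw [this, ho]
    simp
  · have h2 : M = (M.submatrix σ id).submatrix σ.symm id := by
      ext i j
      simp
    have e : Matrix.diagonal (fun i => d (σ.symm i)) * o.submatrix σ.symm id =
        (Matrix.diagonal d * o).submatrix σ.symm id := by
      ext i j
      rw [Matrix.diagonal_mul, Matrix.submatrix_apply, Matrix.submatrix_apply, Matrix.diagonal_mul]
    rw [e, h2, h]
    generalize Matrix.diagonal d * o = P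
    ext i j
    simp only [Matrix.mul_apply, Matrix.submatrix_apply, id]

theorem dotu_of_cols {n : ℕ} {M : Matrix (Fin n) (Fin n) ℝ} (w : Matrix (Fin n) (Fin n) ℤ)
    (hw : IsUnit w.det) (h : Dotu (M * w.map (Int.cast : ℤ → ℝ))) : Dotu M := by
  obtain ⟨d, o, u, z, hd, ho, hu, hz, h⟩ := h
  refine ⟨d, o, u, z * w⁻¹, hd, ho, hu, ?_, ?_⟩
  · rw [Matrix.det_mul]
    exact hz.mul (Matrix.isUnit_nonsing_inv_det w hw)
  · rw [map_mul_int, ← Matrix.mul_assoc, ← h, Matrix.mul_assoc, ← map_mul_int,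
      Matrix.mul_nonsing_inv w hw, map_one_int, Matrix.mul_one]

theorem dotu_of_reducible {n : ℕ} {M : Matrix (Fin n) (Fin n) ℝ} (hM : M.det ≠ 0)
    (hr : Reducible M) (h : ∀ m < n, DecompositionProperty m) : Dotu M := by
  obtain ⟨k, σ, z, hk, hkn, hz, h0⟩ := hr
  obtain ⟨l, rfl⟩ := Nat.exists_eq_add_of_le hkn.le
  have hz' : ((z.map (Int.cast : ℤ → ℝ))).det ≠ 0 := by
    have h1 : z.map (Int.cast : ℤ → ℝ) * (z⁻¹).map (Int.cast : ℤ → ℝ) = 1 := by
      rw [← map_mul_int, Matrix.mul_nonsing_inv z hz, map_one_int]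
    intro h2
    have := congrArg Matrix.det h1
    rw [Matrix.det_mul, h2, zero_mul, Matrix.det_one] at this
    exact zero_ne_one this
  apply dotu_of_cols z hz
  apply dotu_of_rows σ
  set N := (M * z.map (Int.cast : ℤ → ℝ)).submatrix σ id with hN
  have hb : N = blk (N.submatrix (Fin.castAdd l) (Fin.castAdd l))
      (N.submatrix (Fin.castAdd l) (Fin.natAdd k))
      (N.submatrix (Fin.natAdd k) (Fin.natAdd k)) := by
    ext i j
    refine Fin.addCases (fun i => ?_) (fun i => ?_) i <;>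
      refine Fin.addCases (fun j => ?_) (fun j => ?_) j
    · rw [blk_ll, Matrix.submatrix_apply]
    · rw [blk_lr, Matrix.submatrix_apply]
    · rw [blk_rl, hN]
      exact h0 _ _ (by simp) (by simp)
    · rw [blk_rr, Matrix.submatrix_apply]
  have hd : N.det ≠ 0 := by
    rw [hN]
    have : ((M * z.map (Int.cast : ℤ → ℝ)).submatrix σ id).det =
        Equiv.Perm.sign σ * (M * z.map (Int.cast : ℤ → ℝ)).det :=
      Matrix.det_permute σ _
    rw [this, Matrix.det_mul]
    refine mul_ne_zero ?_ (mul_ne_zero hM hz')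
    rcases Int.units_eq_one_or (Equiv.Perm.sign σ) with h | h <;> simp [h]
  rw [hb, blk_det] at hd
  rw [hb]
  exact dotu_tri _ (h k hkn _ (left_ne_zero_of_mul hd)) (h l (by omega) _ (right_ne_zero_of_mul hd))

theorem decomposition_iff (n : ℕ) : DecompositionProperty n ↔
    ∀ m ≤ n, ∀ M : Matrix (Fin m) (Fin m) ℝ, M.det ≠ 0 → ¬ Reducible M → Dotu M := by
  constructor
  · intro h m hm M hM _
    exact initial hm h M hM
  · induction n using Nat.strong_induction_on with
    | _ n ih =>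
      intro h M hM
      by_cases hr : Reducible M
      · exact dotu_of_reducible hM hr (fun m hm => ih m hm (fun m' hm' => h m' (by omega)))
      · exact h n le_rfl M hM hr

end Pool.Agent.N600.DT
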