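import Mathlib

/-!
# Lattices with a unit flag and the DOTU decomposition (page MP_2877d0_al)
-/

set_option autoImplicit false

namespace Pool.Agent.N600.DT

open Matrix

variable {ι κ : Type} [Fintype ι] [Fintype κ]

/-- orthogonal projection along the unit vector `v` -/
def pr (v : ι → ℝ) : (ι → ℝ) →+ (ι → ℝ) where
  toFun w := w - (v ⬝ᵥ w) • v
  map_zero' := by simp
  map_add' x y := by
    rw [dotProduct_add, add_smul]
    abel

theorem pr_apply (v w : ι → ℝ) : pr v w = w - (v ⬝ᵥ w) • v := rfl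

/-- a discrete subgroup `L` of `ℝ^ι` with a `ℤ`-basis whose Gram-Schmidt vectors have norm one -/
inductive UF : AddSubgroup (ι → ℝ) → Prop
  | zero : UF ⊥
  | step (L : AddSubgroup (ι → ℝ)) (v : ι → ℝ) (hv : v ∈ L) (h1 : v ⬝ᵥ v = 1)
      (hker : ∀ w ∈ L, pr v w = 0 → ∃ m : ℤ, w = m • v) (h : UF (L.map (pr v))) : UF L

theorem pyth (v w : ι → ℝ) (h1 : v ⬝ᵥ v = 1) :
    w ⬝ᵥ w = pr v w ⬝ᵥ pr v w + (v ⬝ᵥ w) ^ 2 := by
  rw [pr_apply]
  simp only [sub_dotProduct, dotProduct_sub, smul_dotProduct, dotProduct_smul, smul_eq_mul, h1]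
  rw [dotProduct_comm w v]
  ring

theorem UF.min {L : AddSubgroup (ι → ℝ)} (h : UF L) : ∀ w ∈ L, w ≠ 0 → 1 ≤ w ⬝ᵥ w := by
  induction h with
  | zero =>
    intro w hw h0
    exact absurd (AddSubgroup.mem_bot.1 hw) h0
  | step L v hv h1 hker h ih =>
    intro w hw h0
    by_cases hp : pr v w = 0
    · obtain ⟨m, hm⟩ := hker w hw hp
      have hm0 : m ≠ 0 := by
        rintro rfl
        exact h0 (by simpa using hm)
      have hm1 : (1 : ℤ) ≤ m ^ 2 := by
        have := sq_pos_of_ne_zero hm0 |> Int.add_one_le_iff.2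
        simpa using this
      have hm2 : (1 : ℝ) ≤ (m : ℝ) ^ 2 := by exact_mod_cast hm1
      have : w = (m : ℝ) • v := by
        rw [hm]
        ext i
        simp
      rw [this, smul_dotProduct, dotProduct_smul, h1]
      simp only [smul_eq_mul, mul_one]
      nlinarith
    · rw [pyth v w h1]
      have := ih (pr v w) (AddSubgroup.mem_map_of_mem _ hw) hp
      nlinarith [sq_nonneg (v ⬝ᵥ w)]

theorem UF.aux {L L1 L2 : AddSubgroup (ι → ℝ)} {v : ι → ℝ} (hL : L = L1 ⊔ L2)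
    (ho : ∀ x ∈ L1, ∀ y ∈ L2, x ⬝ᵥ y = 0) (hv : v ∈ L1) (h1 : v ⬝ᵥ v = 1)
    (hker : ∀ w ∈ L, pr v w = 0 → ∃ m : ℤ, w = m • v)
    (ih : ∀ M1 M2 : AddSubgroup (ι → ℝ), (L.map (pr v)) = M1 ⊔ M2 →
      (∀ x ∈ M1, ∀ y ∈ M2, x ⬝ᵥ y = 0) → UF M1 ∧ UF M2) : UF L1 ∧ UF L2 := by
  have h2 : L2.map (pr v) = L2 := by
    ext y
    constructor
    · rintro ⟨z, hz, rfl⟩
      have : v ⬝ᵥ z = 0 := ho v hv z hz
      rw [pr_apply, this]
      simpa using hz
    · intro hy
      refine ⟨y, hy, ?_⟩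
      have : v ⬝ᵥ y = 0 := ho v hv y hy
      rw [pr_apply, this]
      simp
  have h3 := ih (L1.map (pr v)) L2 (by rw [hL, AddSubgroup.map_sup, h2]) (by
    rintro x ⟨z, hz, rfl⟩ y hy
    rw [pr_apply, sub_dotProduct, smul_dotProduct, ho z hz y hy, ho v hv y hy]
    simp)
  refine ⟨UF.step L1 v hv h1 (fun w hw => hker w (by rw [hL]; exact le_sup_left (a := L1) hw)) h3.1,
    h3.2⟩

theorem UF.split {L : AddSubgroup (ι → ℝ)} (h : UF L) : ∀ L1 L2 : AddSubgroup (ι → ℝ),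
    L = L1 ⊔ L2 → (∀ x ∈ L1, ∀ y ∈ L2, x ⬝ᵥ y = 0) → UF L1 ∧ UF L2 := by
  induction h with
  | zero =>
    intro L1 L2 hL _
    have h1 : L1 = ⊥ := le_bot_iff.1 (hL ▸ le_sup_left)
    have h2 : L2 = ⊥ := le_bot_iff.1 (hL ▸ le_sup_right)
    rw [h1, h2]
    exact ⟨UF.zero, UF.zero⟩
  | step L v hv h1 hker h ih =>
    intro L1 L2 hL ho
    have hU : UF L := UF.step L v hv h1 hker h
    have hv' := hv
    rw [hL] at hv'
    obtain ⟨v1, hv1, v2, hv2, rfl⟩ := AddSubgroup.mem_sup.1 hv'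
    have e : v1 ⬝ᵥ v1 + v2 ⬝ᵥ v2 = 1 := by
      rw [← h1, add_dotProduct, dotProduct_add, dotProduct_add, ho v1 hv1 v2 hv2,
        dotProduct_comm v2 v1, ho v1 hv1 v2 hv2]
      ring
    by_cases z1 : v1 = 0
    · subst z1
      rw [zero_add] at h1 hker h ih hv
      have := UF.aux (L := L) (L1 := L2) (L2 := L1) (by rw [hL, sup_comm])
        (fun x hx y hy => by rw [dotProduct_comm]; exact ho y hy x hx) hv2 h1 hker
        (fun M1 M2 => by simpa using ih M1 M2)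
      exact ⟨this.2, this.1⟩
    · by_cases z2 : v2 = 0
      · subst z2
        rw [add_zero] at h1 hker h ih hv
        exact UF.aux hL ho hv1 h1 hker (fun M1 M2 => by simpa using ih M1 M2)
      · exfalso
        have a1 := hU.min v1 (by rw [hL]; exact le_sup_left (a := L1) hv1) z1
        have a2 := hU.min v2 (by rw [hL]; exact le_sup_right (a := L1) hv2) z2
        linarith

/-! ## Isometries -/

theorem UF.map {κ : Type} [Fintype κ] (φ : (ι → ℝ) →+ (κ → ℝ))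
    (hs : ∀ (c : ℝ) x, φ (c • x) = c • φ x) (hφ : ∀ x y, φ x ⬝ᵥ φ y = x ⬝ᵥ y)
    {L : AddSubgroup (κ → ℝ)} (h : UF L) : ∀ L' : AddSubgroup (ι → ℝ), L = L'.map φ → UF L' := by
  have hinj : ∀ x, φ x = 0 → x = 0 := by
    intro x hx
    have := hφ x x
    rw [hx, dotProduct_zero] at this
    exact dotProduct_self_eq_zero.1 this.symm
  have hpr : ∀ v w, pr (φ v) (φ w) = φ (pr v w) := by
    intro v w
    rw [pr_apply, pr_apply, map_sub, hs, hφ]
  induction h with
  | zero =>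
    intro L' hL
    have : L' = ⊥ := by
      rw [eq_bot_iff]
      intro x hx
      have : φ x ∈ (⊥ : AddSubgroup (κ → ℝ)) := by
        rw [hL]
        exact AddSubgroup.mem_map_of_mem _ hx
      exact AddSubgroup.mem_bot.2 (hinj x (AddSubgroup.mem_bot.1 this))
    rw [this]
    exact UF.zero
  | step L v hv h1 hker h ih =>
    intro L' hL
    have hv' := hv
    rw [hL] at hv'
    obtain ⟨v', hv', rfl⟩ := hv'
    refine UF.step L' v' hv' (by rw [← h1, hφ]) ?_ ?_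
    · intro w hw hp
      obtain ⟨m, hm⟩ := hker (φ w) (by rw [hL]; exact AddSubgroup.mem_map_of_mem _ hw)
        (by rw [hpr, hp, map_zero])
      refine ⟨m, ?_⟩
      have : φ (w - m • v') = 0 := by
        rw [map_sub, hm, map_zsmul]
        simp
      exact sub_eq_zero.1 (hinj _ this)
    · apply ih
      rw [hL]
      ext x
      constructor
      · rintro ⟨_, ⟨y, hy, rfl⟩, rfl⟩
        exact ⟨pr v' y, ⟨y, hy, rfl⟩, (hpr v' y).symm⟩
      · rintro ⟨_, ⟨y, hy, rfl⟩, rfl⟩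
        exact ⟨φ y, ⟨y, hy, rfl⟩, hpr v' y⟩

end Pool.Agent.N600.DT
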