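import Pool.Agent.N600.DT.Mat

/-!
# The DOTU decomposition: direct sums, an initial segment, reducible lattices
-/

set_option autoImplicit false

namespace Pool.Agent.N600.DT

open Matrix

/-- `M = d o u z` with `d` invertible diagonal, `o` orthogonal, `u` upper unitriangular and
`z ∈ GL_n(ℤ)`: the matrix `M` belongs to `D_n(ℝ) O_n(ℝ) UT_n(ℝ) GL_n(ℤ)` -/
def Dotu {n : ℕ} (M : Matrix (Fin n) (Fin n) ℝ) : Prop :=
  ∃ (d : Fin n → ℝ) (o u : Matrix (Fin n) (Fin n) ℝ) (z : Matrix (Fin n) (Fin n) ℤ),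
    (∀ i, d i ≠ 0) ∧ oᵀ * o = 1 ∧ ((∀ i, u i i = 1) ∧ ∀ i j, j < i → u i j = 0) ∧
    IsUnit z.det ∧ M = Matrix.diagonal d * o * u * z.map (Int.cast : ℤ → ℝ)

/-- the decomposition property of `n` -/
def DecompositionProperty (n : ℕ) : Prop :=
  ∀ M : Matrix (Fin n) (Fin n) ℝ, M.det ≠ 0 → Dotu M

/-- the block triangular matrix with the blocks `A`, `C`, `0`, `B` -/
def blk {n m : ℕ} (A : Matrix (Fin n) (Fin n) ℝ) (C : Matrix (Fin n) (Fin m) ℝ)
    (B : Matrix (Fin m) (Fin m) ℝ) : Matrix (Fin (n + m)) (Fin (n + m)) ℝ :=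
  Matrix.reindex finSumFinEquiv finSumFinEquiv (Matrix.fromBlocks A C 0 B)

section lattices

variable {ι κ κ' : Type} [Fintype ι] [Fintype κ] [Fintype κ']

omit [Fintype κ] in
theorem cast_mulVec (Z : Matrix κ κ' ℤ) (x : κ' → ℤ) :
    (Z.map (Int.cast : ℤ → ℝ)) *ᵥ (fun k => (x k : ℝ)) = fun k => ((Z *ᵥ x) k : ℝ) := by
  ext k
  simp [Matrix.mulVec, dotProduct]

omit [Fintype ι] in
theorem lat_mul_le (M : Matrix ι κ ℝ) (Z : Matrix κ κ' ℤ) :
    lat (M * Z.map (Int.cast : ℤ → ℝ)) ≤ lat M := by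
  intro w hw
  obtain ⟨x, rfl⟩ := (mem_lat _ _).1 hw
  rw [← Matrix.mulVec_mulVec, cast_mulVec]
  exact (mem_lat _ _).2 ⟨_, rfl⟩

omit [Fintype ι] in
theorem exists_int [DecidableEq κ'] (B : Matrix ι κ' ℝ) (M : Matrix ι κ ℝ) (h : lat B ≤ lat M) :
    ∃ Z : Matrix κ κ' ℤ, B = M * Z.map (Int.cast : ℤ → ℝ) := by
  have h1 : ∀ j : κ', ∃ x : κ → ℤ, M *ᵥ (fun k => (x k : ℝ)) = fun i => B i j := by
    intro j
    have : (fun i => B i j) ∈ lat B := by
      refine (mem_lat _ _).2 ⟨Pi.single j 1, ?_⟩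
      ext i
      simp only [Matrix.mulVec, dotProduct]
      rw [Finset.sum_eq_single j]
      · simp
      · intro b _ hb
        simp [hb]
      · simp
    exact (mem_lat _ _).1 (h this)
  choose x hx using h1
  refine ⟨fun k j => x j k, ?_⟩
  ext i j
  rw [Matrix.mul_apply]
  exact (congrFun (hx j) i).symm

omit [Fintype ι] [Fintype κ] in
theorem map_mul_int (Z : Matrix κ κ' ℤ) (W : Matrix κ' ι ℤ) :
    (Z * W).map (Int.cast : ℤ → ℝ) = Z.map (Int.cast : ℤ → ℝ) * W.map (Int.cast : ℤ → ℝ) := by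
  ext i j
  simp [Matrix.mul_apply]

end lattices

theorem map_one_int {n : ℕ} : ((1 : Matrix (Fin n) (Fin n) ℤ).map (Int.cast : ℤ → ℝ)) = 1 := by
  ext i j
  simp only [Matrix.map_apply, Matrix.one_apply]
  split <;> simp

theorem map_inj_int {n : ℕ} {Z W : Matrix (Fin n) (Fin n) ℤ}
    (h : Z.map (Int.cast : ℤ → ℝ) = W.map (Int.cast : ℤ → ℝ)) : Z = W := by
  ext i j
  have := congrFun (congrFun h i) j
  simpa using this

theorem uf_of_dotu {n : ℕ} {M : Matrix (Fin n) (Fin n) ℝ} (h : Dotu M) :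
    ∃ δ : Fin n → ℝ, (∀ i, δ i ≠ 0) ∧ UF (lat (Matrix.diagonal δ * M)) := by
  obtain ⟨d, o, u, z, hd, ho, hu, hz, rfl⟩ := h
  refine ⟨fun i => (d i)⁻¹, fun i => inv_ne_zero (hd i), ?_⟩
  have e : Matrix.diagonal (fun i => (d i)⁻¹) *
      (Matrix.diagonal d * o * u * z.map (Int.cast : ℤ → ℝ)) =
      (o * u) * z.map (Int.cast : ℤ → ℝ) := by
    rw [← Matrix.mul_assoc, ← Matrix.mul_assoc, ← Matrix.mul_assoc, Matrix.diagonal_mul_diagonal]
    have : (Matrix.diagonal fun i => (d i)⁻¹ * d i) = (1 : Matrix (Fin n) (Fin n) ℝ) := by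
      rw [← Matrix.diagonal_one]
      congr 1
      ext i
      exact inv_mul_cancel₀ (hd i)
    rw [this, Matrix.one_mul]
  rw [e]
  have h1 : lat ((o * u) * z.map (Int.cast : ℤ → ℝ)) = lat (o * u) := by
    apply le_antisymm (lat_mul_le _ _)
    have h2 := lat_mul_le ((o * u) * z.map (Int.cast : ℤ → ℝ)) (z⁻¹)
    rw [Matrix.mul_assoc, ← map_mul_int, Matrix.mul_nonsing_inv z hz, map_one_int,
      Matrix.mul_one] at h2
    exact h2
  rw [h1]
  exact UF.of_mat o u ho hu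

theorem dotu_of_uf {n : ℕ} {M : Matrix (Fin n) (Fin n) ℝ} (hM : M.det ≠ 0)
    (δ : Fin n → ℝ) (hδ : ∀ i, δ i ≠ 0) (h : UF (lat (Matrix.diagonal δ * M))) : Dotu M := by
  obtain ⟨r, O, U, hO, hU, hL⟩ := h.to_mat
  obtain ⟨Z1, hZ1⟩ := exists_int (O * U) (Matrix.diagonal δ * M) hL.ge
  obtain ⟨Z2, hZ2⟩ := exists_int (Matrix.diagonal δ * M) (O * U) hL.le
  have hdet : (Matrix.diagonal δ * M).det ≠ 0 := by
    rw [Matrix.det_mul, Matrix.det_diagonal]
    exact mul_ne_zero (Finset.prod_ne_zero_iff.2 (fun i _ => hδ i)) hM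
  have h12 : Z1 * Z2 = 1 := by
    apply map_inj_int
    rw [map_mul_int, map_one_int]
    have h3 : (Matrix.diagonal δ * M) * (Z1.map (Int.cast : ℤ → ℝ) * Z2.map (Int.cast : ℤ → ℝ)) =
        (Matrix.diagonal δ * M) * 1 := by
      rw [← Matrix.mul_assoc, ← hZ1, ← hZ2, Matrix.mul_one]
    have h4 := congrArg (fun X => (Matrix.diagonal δ * M)⁻¹ * X) h3
    simpa [← Matrix.mul_assoc, Matrix.nonsing_inv_mul _ (isUnit_iff_ne_zero.2 hdet)] using h4
  have h21 : Z2 * Z1 = 1 := by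
    apply map_inj_int
    rw [map_mul_int, map_one_int]
    have h3 : (O * U) * (Z2.map (Int.cast : ℤ → ℝ) * Z1.map (Int.cast : ℤ → ℝ)) =
        (O * U) * (1 : Matrix (Fin r) (Fin r) ℝ) := by
      rw [← Matrix.mul_assoc, ← hZ2, ← hZ1, Matrix.mul_one]
    have h4 := congrArg (fun X => U⁻¹ * (Oᵀ * X)) h3
    have hUd : IsUnit U.det := by
      rw [UT.det hU]
      exact isUnit_one
    have h5 : ∀ X : Matrix (Fin r) (Fin r) ℝ, U⁻¹ * (Oᵀ * (O * U * X)) = X := by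
      intro X
      rw [Matrix.mul_assoc O U X, ← Matrix.mul_assoc Oᵀ O, hO, Matrix.one_mul, ← Matrix.mul_assoc,
        Matrix.nonsing_inv_mul _ hUd, Matrix.one_mul]
    simp only [h5] at h4
    exact h4
  have hr : r = n := by
    have h3 : (Z1 * Z2).trace = (Z2 * Z1).trace := Matrix.trace_mul_comm Z1 Z2
    rw [h12, h21, Matrix.trace_one, Matrix.trace_one] at h3
    simpa using h3.symm
  subst hr
  refine ⟨fun i => (δ i)⁻¹, O, U, Z2, fun i => inv_ne_zero (hδ i), hO, hU, ?_, ?_⟩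
  · have := congrArg Matrix.det h21
    rw [Matrix.det_mul, Matrix.det_one] at this
    exact IsUnit.of_mul_eq_one _ this
  · have e : Matrix.diagonal (fun i => (δ i)⁻¹) * (Matrix.diagonal δ * M) = M := by
      rw [← Matrix.mul_assoc, Matrix.diagonal_mul_diagonal]
      have : (Matrix.diagonal fun i => (δ i)⁻¹ * δ i) = (1 : Matrix (Fin r) (Fin r) ℝ) := by
        rw [← Matrix.diagonal_one]
        congr 1
        ext i
        exact inv_mul_cancel₀ (hδ i)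
      rw [this, Matrix.one_mul]
    rw [← e, hZ2]
    simp only [Matrix.mul_assoc]

/-! ## Direct sums -/

section sums

variable {n m : ℕ}

/-- the embedding of the first coordinates -/
def φ1 (n m : ℕ) : (Fin n → ℝ) →+ (Fin (n + m) → ℝ) where
  toFun x := Fin.append x 0
  map_zero' := by
    ext i
    refine Fin.addCases (fun i => ?_) (fun i => ?_) i <;> simp
  map_add' x y := by
    ext i
    refine Fin.addCases (fun i => ?_) (fun i => ?_) i <;> simp

/-- the embedding of the last coordinates -/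
def φ2 (n m : ℕ) : (Fin m → ℝ) →+ (Fin (n + m) → ℝ) where
  toFun x := Fin.append 0 x
  map_zero' := by
    ext i
    refine Fin.addCases (fun i => ?_) (fun i => ?_) i <;> simp
  map_add' x y := by
    ext i
    refine Fin.addCases (fun i => ?_) (fun i => ?_) i <;> simp

theorem φ1_l (x : Fin n → ℝ) (i : Fin n) : φ1 n m x (Fin.castAdd m i) = x i :=
  Fin.append_left x 0 i
theorem φ1_r (x : Fin n → ℝ) (i : Fin m) : φ1 n m x (Fin.natAdd n i) = 0 :=
  Fin.append_right x 0 i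
theorem φ2_l (x : Fin m → ℝ) (i : Fin n) : φ2 n m x (Fin.castAdd m i) = 0 :=
  Fin.append_left 0 x i
theorem φ2_r (x : Fin m → ℝ) (i : Fin m) : φ2 n m x (Fin.natAdd n i) = x i :=
  Fin.append_right 0 x i

theorem blk_ll (A : Matrix (Fin n) (Fin n) ℝ) (C : Matrix (Fin n) (Fin m) ℝ)
    (B : Matrix (Fin m) (Fin m) ℝ) (i j) : blk A C B (Fin.castAdd m i) (Fin.castAdd m j) = A i j := by
  simp [blk]
theorem blk_lr (A : Matrix (Fin n) (Fin n) ℝ) (C : Matrix (Fin n) (Fin m) ℝ)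
    (B : Matrix (Fin m) (Fin m) ℝ) (i j) : blk A C B (Fin.castAdd m i) (Fin.natAdd n j) = C i j := by
  simp [blk]
theorem blk_rl (A : Matrix (Fin n) (Fin n) ℝ) (C : Matrix (Fin n) (Fin m) ℝ)
    (B : Matrix (Fin m) (Fin m) ℝ) (i j) : blk A C B (Fin.natAdd n i) (Fin.castAdd m j) = 0 := by
  simp [blk]
theorem blk_rr (A : Matrix (Fin n) (Fin n) ℝ) (C : Matrix (Fin n) (Fin m) ℝ)
    (B : Matrix (Fin m) (Fin m) ℝ) (i j) : blk A C B (Fin.natAdd n i) (Fin.natAdd n j) = B i j := by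
  simp [blk]

theorem blk_det (A : Matrix (Fin n) (Fin n) ℝ) (C : Matrix (Fin n) (Fin m) ℝ)
    (B : Matrix (Fin m) (Fin m) ℝ) : (blk A C B).det = A.det * B.det := by
  rw [blk, Matrix.det_reindex_self, Matrix.det_fromBlocks_zero₂₁]

theorem blk_mulVec (A : Matrix (Fin n) (Fin n) ℝ) (B : Matrix (Fin m) (Fin m) ℝ)
    (δ : Fin (n + m) → ℝ) (x : Fin (n + m) → ℤ) :
    (Matrix.diagonal δ * blk A 0 B) *ᵥ (fun k => (x k : ℝ)) =
      φ1 n m ((Matrix.diagonal (fun i => δ (Fin.castAdd m i)) * A) *ᵥ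
        (fun k => ((x (Fin.castAdd m k) : ℤ) : ℝ))) +
      φ2 n m ((Matrix.diagonal (fun i => δ (Fin.natAdd n i)) * B) *ᵥ
        (fun k => ((x (Fin.natAdd n k) : ℤ) : ℝ))) := by
  ext i
  rw [Pi.add_apply]
  refine Fin.addCases (fun i => ?_) (fun i => ?_) i
  · rw [φ1_l, φ2_l]
    simp only [Matrix.mulVec, dotProduct, Fin.sum_univ_add, Matrix.diagonal_mul, blk_ll, blk_lr,
      Matrix.zero_apply, mul_zero, zero_mul, Finset.sum_const_zero]
  · rw [φ1_r, φ2_r]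
    simp only [Matrix.mulVec, dotProduct, Fin.sum_univ_add, Matrix.diagonal_mul, blk_rl, blk_rr,
      mul_zero, zero_mul, Finset.sum_const_zero]

theorem lat_blk (A : Matrix (Fin n) (Fin n) ℝ) (B : Matrix (Fin m) (Fin m) ℝ)
    (δ : Fin (n + m) → ℝ) :
    lat (Matrix.diagonal δ * blk A 0 B) =
      (lat (Matrix.diagonal (fun i => δ (Fin.castAdd m i)) * A)).map (φ1 n m) ⊔
      (lat (Matrix.diagonal (fun i => δ (Fin.natAdd n i)) * B)).map (φ2 n m) := by
  ext w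
  rw [AddSubgroup.mem_sup]
  constructor
  · intro hw
    obtain ⟨x, rfl⟩ := (mem_lat _ _).1 hw
    rw [blk_mulVec]
    exact ⟨_, AddSubgroup.mem_map_of_mem _ ((mem_lat _ _).2 ⟨_, rfl⟩), _,
      AddSubgroup.mem_map_of_mem _ ((mem_lat _ _).2 ⟨_, rfl⟩), rfl⟩
  · rintro ⟨_, ⟨a, ha, rfl⟩, _, ⟨b, hb, rfl⟩, rfl⟩
    obtain ⟨x, rfl⟩ := (mem_lat _ _).1 ha
    obtain ⟨y, rfl⟩ := (mem_lat _ _).1 hb
    refine (mem_lat _ _).2 ⟨Fin.append x y, ?_⟩
    rw [blk_mulVec]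
    simp only [Fin.append_left, Fin.append_right]

theorem φ1_dot (x y : Fin n → ℝ) : φ1 n m x ⬝ᵥ φ1 n m y = x ⬝ᵥ y := by
  simp only [dotProduct, Fin.sum_univ_add, φ1_l, φ1_r, mul_zero, Finset.sum_const_zero, add_zero]

theorem φ2_dot (x y : Fin m → ℝ) : φ2 n m x ⬝ᵥ φ2 n m y = x ⬝ᵥ y := by
  simp only [dotProduct, Fin.sum_univ_add, φ2_l, φ2_r, mul_zero, Finset.sum_const_zero, zero_add]

theorem φ12_dot (x : Fin n → ℝ) (y : Fin m → ℝ) : φ1 n m x ⬝ᵥ φ2 n m y = 0 := by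
  simp only [dotProduct, Fin.sum_univ_add, φ1_l, φ1_r, φ2_l, φ2_r, mul_zero, zero_mul,
    Finset.sum_const_zero, zero_add]

theorem φ1_smul (c : ℝ) (x : Fin n → ℝ) : φ1 n m (c • x) = c • φ1 n m x := by
  ext i
  refine Fin.addCases (fun i => ?_) (fun i => ?_) i <;> simp [φ1_l, φ1_r]

theorem φ2_smul (c : ℝ) (x : Fin m → ℝ) : φ2 n m (c • x) = c • φ2 n m x := by
  ext i
  refine Fin.addCases (fun i => ?_) (fun i => ?_) i <;> simp [φ2_l, φ2_r]

/-- a direct sum is decomposable only if both summands are -/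
theorem dotu_sum {A : Matrix (Fin n) (Fin n) ℝ} {B : Matrix (Fin m) (Fin m) ℝ}
    (hA : A.det ≠ 0) (hB : B.det ≠ 0) (h : Dotu (blk A 0 B)) : Dotu A ∧ Dotu B := by
  obtain ⟨δ, hδ, hU⟩ := uf_of_dotu h
  rw [lat_blk] at hU
  have := hU.split _ _ rfl (by
    rintro _ ⟨a, _, rfl⟩ _ ⟨b, _, rfl⟩
    exact φ12_dot a b)
  exact ⟨dotu_of_uf hA _ (fun i => hδ _) (UF.map (φ1 n m) φ1_smul φ1_dot this.1 _ rfl),
    dotu_of_uf hB _ (fun i => hδ _) (UF.map (φ2 n m) φ2_smul φ2_dot this.2 _ rfl)⟩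

end sums

/-- the numbers with the decomposition property form an initial segment -/
theorem initial {m n : ℕ} (hmn : m ≤ n) (h : DecompositionProperty n) :
    DecompositionProperty m := by
  obtain ⟨l, rfl⟩ := Nat.exists_eq_add_of_le hmn
  intro A hA
  have h1 : (1 : Matrix (Fin l) (Fin l) ℝ).det ≠ 0 := by
    rw [Matrix.det_one]
    exact one_ne_zero
  exact (dotu_sum hA h1 (h (blk A 0 1) (by rw [blk_det]; exact mul_ne_zero hA h1))).1

end Pool.Agent.N600.DT
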