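import Pool.Agent.N600.DT.Flag

/-!
# Unit flags and matrices
-/

set_option autoImplicit false

namespace Pool.Agent.N600.DT

open Matrix

variable {ι κ : Type} [Fintype ι] [Fintype κ]

/-- the lattice generated by the columns of `M` -/
def lat (M : Matrix ι κ ℝ) : AddSubgroup (ι → ℝ) :=
  AddMonoidHom.range
    ({ toFun := fun x : κ → ℤ => M *ᵥ (fun k => (x k : ℝ))
       map_zero' := by
         ext i
         simp [Matrix.mulVec, dotProduct]
       map_add' := by
         intro x y
         rw [← Matrix.mulVec_add]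
         congr 1
         ext k
         simp } : (κ → ℤ) →+ (ι → ℝ))

omit [Fintype ι] in
theorem mem_lat (M : Matrix ι κ ℝ) (w : ι → ℝ) :
    w ∈ lat M ↔ ∃ x : κ → ℤ, M *ᵥ (fun k => (x k : ℝ)) = w := Iff.rfl

/-- upper unitriangular -/
def UT {r : ℕ} (U : Matrix (Fin r) (Fin r) ℝ) : Prop :=
  (∀ i, U i i = 1) ∧ ∀ i j, j < i → U i j = 0

theorem UT.det {r : ℕ} {U : Matrix (Fin r) (Fin r) ℝ} (h : UT U) : U.det = 1 := by
  rw [Matrix.det_of_isUpperTriangular (fun i j hij => h.2 i j hij)]
  exact Finset.prod_eq_one (fun i _ => h.1 i)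

theorem UT.inj {r : ℕ} {U : Matrix (Fin r) (Fin r) ℝ} (h : UT U) {x : Fin r → ℝ}
    (hx : U *ᵥ x = 0) : x = 0 :=
  Matrix.eq_zero_of_mulVec_eq_zero (by rw [h.det]; exact one_ne_zero) hx

theorem UT.inj' {r : ℕ} {U : Matrix (Fin r) (Fin r) ℝ} (h : UT U) {x : Fin r → ℝ}
    (hx : x ᵥ* U = 0) : x = 0 :=
  Matrix.eq_zero_of_vecMul_eq_zero (by rw [h.det]; exact one_ne_zero) hx

theorem UF.of_mat {r : ℕ} : ∀ (O : Matrix ι (Fin r) ℝ) (U : Matrix (Fin r) (Fin r) ℝ),
    Oᵀ * O = 1 → UT U → UF (lat (O * U)) := by
  induction r with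
  | zero =>
    intro O U _ _
    have : lat (O * U) = ⊥ := by
      rw [eq_bot_iff]
      rintro w hw
      obtain ⟨x, rfl⟩ := (mem_lat _ _).1 hw
      rw [AddSubgroup.mem_bot]
      ext i
      simp [Matrix.mulVec, dotProduct]
    rw [this]
    exact UF.zero
  | succ r ih =>
    intro O U hO hU
    set v : ι → ℝ := fun i => O i 0 with hv
    set O' : Matrix ι (Fin r) ℝ := fun i j => O i j.succ with hO'
    set U' : Matrix (Fin r) (Fin r) ℝ := fun i j => U i.succ j.succ with hU'
    have hOO : ∀ a b, ∑ i, O i a * O i b = if a = b then 1 else 0 := by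
      intro a b
      have := congrFun (congrFun hO a) b
      rw [Matrix.mul_apply, Matrix.one_apply] at this
      simpa [Matrix.transpose_apply] using this
    have hOO' : O'ᵀ * O' = 1 := by
      ext a b
      rw [Matrix.mul_apply, Matrix.one_apply]
      have h2 := hOO a.succ b.succ
      simp only [Fin.succ_inj] at h2
      exact h2
    have hUU' : UT U' := ⟨fun i => hU.1 _, fun i j hij => hU.2 _ _ (Fin.succ_lt_succ_iff.2 hij)⟩
    have h1 : v ⬝ᵥ v = 1 := by
      have := hOO 0 0
      simpa [dotProduct] using this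
    have hvO : ∀ y : Fin (r + 1) → ℝ, v ⬝ᵥ (O *ᵥ y) = y 0 := by
      intro y
      have e : v = O *ᵥ (Pi.single 0 1) := by
        ext i
        simp [hv]
      rw [e, Matrix.dotProduct_mulVec, Matrix.vecMul_mulVec, ← Matrix.dotProduct_mulVec]
      rw [hO]
      simp
    have hprO : ∀ y : Fin (r + 1) → ℝ, pr v (O *ᵥ y) = O' *ᵥ (fun j => y j.succ) := by
      intro y
      rw [pr_apply, hvO]
      ext i
      simp only [Pi.sub_apply, Pi.smul_apply, smul_eq_mul, Matrix.mulVec, dotProduct,
        Fin.sum_univ_succ, hv, hO']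
      ring
    have hUy : ∀ x : Fin (r + 1) → ℝ, (fun j : Fin r => (U *ᵥ x) j.succ) =
        U' *ᵥ (fun j => x j.succ) := by
      intro x
      ext i
      simp only [Matrix.mulVec, dotProduct, Fin.sum_univ_succ, hU']
      rw [hU.2 i.succ 0 (Fin.succ_pos i)]
      ring
    have hpr : ∀ x : Fin (r + 1) → ℝ, pr v ((O * U) *ᵥ x) = (O' * U') *ᵥ (fun j => x j.succ) := by
      intro x
      rw [← Matrix.mulVec_mulVec, hprO, hUy, Matrix.mulVec_mulVec]
    have hcol : ∀ i, (O * U) i 0 = v i := by
      intro i
      rw [Matrix.mul_apply, Fin.sum_univ_succ, hU.1 0]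
      rw [Finset.sum_eq_zero (fun j _ => by rw [hU.2 j.succ 0 (Fin.succ_pos j)]; ring)]
      simp [hv]
    refine UF.step _ v ?_ h1 ?_ ?_
    · refine (mem_lat _ _).2 ⟨Pi.single 0 1, ?_⟩
      ext i
      rw [← hcol i]
      simp only [Matrix.mulVec, dotProduct]
      rw [Finset.sum_eq_single 0]
      · simp
      · intro b _ hb
        simp [hb]
      · simp
    · intro w hw hp
      obtain ⟨x, rfl⟩ := (mem_lat _ _).1 hw
      rw [hpr] at hp
      have h2 : U' *ᵥ (fun j => ((x j.succ : ℤ) : ℝ)) = 0 := by
        have h3 := congrArg (fun y => O'ᵀ *ᵥ y) hp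
        simpa [Matrix.mulVec_mulVec, ← Matrix.mul_assoc, hOO'] using h3
      have h4 := hUU'.inj h2
      refine ⟨x 0, ?_⟩
      ext i
      simp only [Matrix.mulVec, dotProduct, Fin.sum_univ_succ]
      rw [Finset.sum_eq_zero (fun j _ => by
        have := congrFun h4 j
        simp only [Pi.zero_apply] at this
        rw [this, mul_zero])]
      rw [hcol i]
      simp [mul_comm]
    · have : (lat (O * U)).map (pr v) = lat (O' * U') := by
        ext w
        constructor
        · rintro ⟨y, hy, rfl⟩
          obtain ⟨x, rfl⟩ := (mem_lat _ _).1 hy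
          rw [hpr]
          exact (mem_lat _ _).2 ⟨fun j => x j.succ, rfl⟩
        · intro hw
          obtain ⟨x, rfl⟩ := (mem_lat _ _).1 hw
          refine ⟨(O * U) *ᵥ (fun k => ((Fin.cons 0 x : Fin (r + 1) → ℤ) k : ℝ)),
            (mem_lat _ _).2 ⟨_, rfl⟩, ?_⟩
          rw [hpr]
          congr 1
      rw [this]
      exact ih O' U' hOO' hUU'

theorem UF.to_mat {L : AddSubgroup (ι → ℝ)} (h : UF L) :
    ∃ (r : ℕ) (O : Matrix ι (Fin r) ℝ) (U : Matrix (Fin r) (Fin r) ℝ),
      Oᵀ * O = 1 ∧ UT U ∧ L = lat (O * U) := by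
  induction h with
  | zero =>
    refine ⟨0, 0, 1, ?_, ⟨fun i => i.elim0, fun i => i.elim0⟩, ?_⟩
    · ext i
      exact i.elim0
    · symm
      rw [eq_bot_iff]
      rintro w hw
      obtain ⟨x, rfl⟩ := (mem_lat _ _).1 hw
      rw [AddSubgroup.mem_bot]
      ext i
      simp [Matrix.mulVec, dotProduct]
  | step L v hv h1 hker h ih =>
    obtain ⟨r, O', U', hO', hU', hL⟩ := ih
    have hb : ∀ j : Fin r, ∃ b ∈ L, pr v b = fun i => (O' * U') i j := by
      intro j
      have : (fun i => (O' * U') i j) ∈ L.map (pr v) := by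
        rw [hL]
        refine (mem_lat _ _).2 ⟨Pi.single j 1, ?_⟩
        ext i
        simp only [Matrix.mulVec, dotProduct]
        rw [Finset.sum_eq_single j]
        · simp
        · intro b _ hb
          simp [hb]
        · simp
      obtain ⟨b, hb, hb'⟩ := this
      exact ⟨b, hb, hb'⟩
    choose b hbL hbp using hb
    have hvp : ∀ w, v ⬝ᵥ pr v w = 0 := by
      intro w
      rw [pr_apply, dotProduct_sub, dotProduct_smul, h1]
      simp
    have hvO : v ᵥ* O' = 0 := by
      apply hU'.inj'
      rw [Matrix.vecMul_vecMul]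
      ext j
      have := hvp (b j)
      rw [hbp j] at this
      simpa [Matrix.vecMul] using this
    set O : Matrix ι (Fin (r + 1)) ℝ := fun i => Fin.cons (v i) (O' i) with hO
    set U : Matrix (Fin (r + 1)) (Fin (r + 1)) ℝ :=
      Fin.cons (Fin.cons 1 (fun j => v ⬝ᵥ b j)) (fun i => Fin.cons 0 (U' i)) with hU
    have hU00 : U 0 0 = 1 := rfl
    have hU0s : ∀ j : Fin r, U 0 j.succ = v ⬝ᵥ b j := fun j => rfl
    have hUs0 : ∀ i : Fin r, U i.succ 0 = 0 := fun i => rfl
    have hUss : ∀ i j : Fin r, U i.succ j.succ = U' i j := fun i j => rfl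
    have hUT : UT U := by
      constructor
      · intro i
        refine Fin.cases ?_ (fun i => ?_) i
        · exact hU00
        · rw [hUss]
          exact hU'.1 i
      · intro i j
        refine Fin.cases ?_ (fun i => ?_) i
        · intro hj
          exact absurd hj (Fin.not_lt_zero j)
        · refine Fin.cases ?_ (fun j => ?_) j
          · intro _
            exact hUs0 i
          · intro hj
            rw [hUss]
            exact hU'.2 i j (Fin.succ_lt_succ_iff.1 hj)
    have hc0 : ∀ i, (O * U) i 0 = v i := by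
      intro i
      rw [Matrix.mul_apply, Fin.sum_univ_succ, hU00]
      rw [Finset.sum_eq_zero (fun j _ => by rw [hUs0]; ring)]
      simp [hO]
    have hcs : ∀ i (j : Fin r), (O * U) i j.succ = b j i := by
      intro i j
      rw [Matrix.mul_apply, Fin.sum_univ_succ, hU0s]
      have h2 := congrFun (hbp j) i
      rw [pr_apply, Matrix.mul_apply] at h2
      simp only [Pi.sub_apply, Pi.smul_apply, smul_eq_mul] at h2
      have h3 : ∑ k : Fin r, O i k.succ * U k.succ j.succ = ∑ k, O' i k * U' k j := by
        apply Finset.sum_congr rfl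
        intro k _
        rw [hUss]
        simp [hO]
      rw [h3, ← h2]
      simp only [hO, Fin.cons_zero]
      ring
    have hmv : ∀ x : Fin (r + 1) → ℤ, (O * U) *ᵥ (fun k => (x k : ℝ)) =
        x 0 • v + ∑ j : Fin r, x j.succ • b j := by
      intro x
      ext i
      simp only [Matrix.mulVec, dotProduct, Fin.sum_univ_succ, hc0, hcs, Pi.add_apply,
        Finset.sum_apply, zsmul_eq_mul, Pi.mul_apply, Pi.intCast_apply]
      congr 1
      · ring
      · apply Finset.sum_congr rfl
        intro j _
        ring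
    refine ⟨r + 1, O, U, ?_, hUT, ?_⟩
    · ext a c
      rw [Matrix.mul_apply, Matrix.one_apply]
      simp only [Matrix.transpose_apply]
      refine Fin.cases ?_ (fun a => ?_) a <;> refine Fin.cases ?_ (fun c => ?_) c
      · simpa [hO, dotProduct] using h1
      · have := congrFun hvO c
        simp only [Matrix.vecMul, dotProduct, Pi.zero_apply] at this
        simp only [hO, Fin.cons_zero, Fin.cons_succ]
        rw [this, if_neg (Fin.succ_ne_zero c).symm]
      · have := congrFun hvO a
        simp only [Matrix.vecMul, dotProduct, Pi.zero_apply] at this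
        simp only [hO, Fin.cons_zero, Fin.cons_succ]
        rw [if_neg (Fin.succ_ne_zero a), ← this]
        apply Finset.sum_congr rfl
        intro i _
        ring
      · have := congrFun (congrFun hO' a) c
        rw [Matrix.mul_apply, Matrix.one_apply] at this
        simp only [Matrix.transpose_apply] at this
        simp only [hO, Fin.cons_succ, Fin.succ_inj]
        exact this
    · ext w
      constructor
      · intro hw
        have h2 : pr v w ∈ L.map (pr v) := AddSubgroup.mem_map_of_mem _ hw
        rw [hL] at h2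
        obtain ⟨x, hx⟩ := (mem_lat _ _).1 h2
        have h3 : pr v (w - ∑ j, x j • b j) = 0 := by
          rw [map_sub, map_sum, ← hx, sub_eq_zero]
          ext i
          simp only [Matrix.mulVec, dotProduct, Finset.sum_apply]
          apply Finset.sum_congr rfl
          intro j _
          rw [map_zsmul, hbp j]
          simp [mul_comm]
        obtain ⟨m, hm⟩ := hker _ (L.sub_mem hw (L.sum_mem (fun j _ => L.zsmul_mem (hbL j) _))) h3
        refine (mem_lat _ _).2 ⟨Fin.cons m x, ?_⟩
        rw [hmv]
        simp only [Fin.cons_zero, Fin.cons_succ]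
        rw [← hm]
        abel
      · intro hw
        obtain ⟨x, rfl⟩ := (mem_lat _ _).1 hw
        rw [hmv]
        exact L.add_mem (L.zsmul_mem hv _) (L.sum_mem (fun j _ => L.zsmul_mem (hbL j) _))

end Pool.Agent.N600.DT
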