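import Pool.Agent.N600.DT.Extra

/-!
# The norm criterion and totally real number fields
-/

set_option autoImplicit false

namespace Pool.Agent.N600.DT

open Matrix

theorem amgm {k : ℕ} (hk : 0 < k) (a : Fin k → ℝ) (ha : ∀ i, 0 ≤ a i) (hs : ∑ i, a i = 1) :
    (k : ℝ) ^ k * ∏ i, a i ≤ 1 := by
  have hk' : (0 : ℝ) < k := by exact_mod_cast hk
  have h := Real.geom_mean_le_arith_mean_weighted Finset.univ (fun _ : Fin k => (1 : ℝ) / k) a
    (fun i _ => by positivity) (by simp [hk'.ne']) (fun i _ => ha i)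
  have h2 : ∑ i : Fin k, (1 : ℝ) / k * a i = 1 / k := by
    rw [← Finset.mul_sum, hs, mul_one]
  rw [h2, Real.finsetProd_rpow _ _ (fun i _ => ha i)] at h
  have hp : 0 ≤ ∏ i, a i := Finset.prod_nonneg (fun i _ => ha i)
  have h3 : ∏ i, a i ≤ (1 / (k : ℝ)) ^ k := by
    have h4 := pow_le_pow_left₀ (Real.rpow_nonneg hp _) h k
    rwa [← Real.rpow_natCast, ← Real.rpow_mul hp, one_div, inv_mul_cancel₀ hk'.ne',
      Real.rpow_one, ← one_div] at h4
  calc (k : ℝ) ^ k * ∏ i, a i ≤ (k : ℝ) ^ k * (1 / (k : ℝ)) ^ k :=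
        mul_le_mul_of_nonneg_left h3 (by positivity)
    _ = 1 := by
        rw [← mul_pow, mul_one_div_cancel hk'.ne', one_pow]

/-- a lattice with large norm minimum is not decomposable -/
theorem not_dotu_of_norm {k : ℕ} (hk : 0 < k) (M : Matrix (Fin k) (Fin k) ℝ) (c : ℝ) (hc : 0 < c)
    (hN : ∀ x : Fin k → ℤ, x ≠ 0 → c ≤ |∏ i, (M *ᵥ (fun j => (x j : ℝ))) i|)
    (hd : M.det ^ 2 < c ^ 2 * (k : ℝ) ^ k) : ¬ Dotu M := by
  rintro ⟨d, o, u, z, hd0, ho, hu, hz, rfl⟩
  set i0 : Fin k := ⟨0, hk⟩ with hi0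
  set x : Fin k → ℤ := z⁻¹ *ᵥ Pi.single i0 1 with hx
  have hzx : z *ᵥ x = Pi.single i0 1 := by
    rw [hx, Matrix.mulVec_mulVec, Matrix.mul_nonsing_inv z hz, Matrix.one_mulVec]
  have hx0 : x ≠ 0 := by
    intro h
    rw [h, Matrix.mulVec_zero] at hzx
    have := congrFun hzx i0
    simp at this
  have hMx : ∀ i, ((Matrix.diagonal d * o * u * z.map (Int.cast : ℤ → ℝ)) *ᵥ
      (fun j => (x j : ℝ))) i = d i * o i i0 := by
    intro i
    rw [← Matrix.mulVec_mulVec, cast_mulVec, hzx]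
    have e : (fun k_1 : Fin k => (((Pi.single i0 1 : Fin k → ℤ) k_1 : ℤ) : ℝ)) =
        Pi.single i0 1 := by
      ext j
      by_cases h : j = i0
      · subst h
        simp
      · simp [h]
    rw [e, Matrix.mulVec_single_one]
    show (Matrix.diagonal d * o * u) i i0 = _
    rw [Matrix.mul_assoc, Matrix.diagonal_mul, Matrix.mul_apply]
    congr 1
    rw [Finset.sum_eq_single i0]
    · rw [hu.1, mul_one]
    · intro b _ hb
      rw [hu.2 b i0, mul_zero]
      rw [Fin.lt_def]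
      have : (b : ℕ) ≠ 0 := fun h => hb (Fin.ext h)
      simp only [hi0]
      omega
    · simp
  have hoo : ∑ i, o i i0 ^ 2 = 1 := by
    have := congrFun (congrFun ho i0) i0
    rw [Matrix.mul_apply, Matrix.one_apply_eq] at this
    rw [← this]
    apply Finset.sum_congr rfl
    intro i _
    rw [Matrix.transpose_apply]
    ring
  have hdo : o.det ^ 2 = 1 := by
    have := congrArg Matrix.det ho
    rw [Matrix.det_mul, Matrix.det_transpose, Matrix.det_one] at this
    rw [sq]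
    exact this
  have hdz : ((z.map (Int.cast : ℤ → ℝ)).det) ^ 2 = 1 := by
    have h1 : (z.map (Int.cast : ℤ → ℝ)).det = ((z.det : ℤ) : ℝ) := by
      have := (Int.castRingHom ℝ).map_det z
      simpa [RingHom.mapMatrix_apply] using this.symm
    rw [h1]
    rcases Int.isUnit_iff.1 hz with h | h <;> rw [h] <;> norm_num
  have hdet : (Matrix.diagonal d * o * u * z.map (Int.cast : ℤ → ℝ)).det ^ 2 =
      (∏ i, d i) ^ 2 := by
    rw [Matrix.det_mul, Matrix.det_mul, Matrix.det_mul, Matrix.det_diagonal, UT.det hu]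
    calc _ = (∏ i, d i) ^ 2 * o.det ^ 2 * (z.map (Int.cast : ℤ → ℝ)).det ^ 2 := by ring
      _ = _ := by rw [hdo, hdz]; ring
  have h1 := hN x hx0
  simp only [hMx] at h1
  rw [Finset.prod_mul_distrib] at h1
  have h2 : c ^ 2 ≤ (∏ i, d i) ^ 2 * (∏ i, o i i0 ^ 2) := by
    have := pow_le_pow_left₀ hc.le h1 2
    rw [sq_abs, mul_pow, ← Finset.prod_pow Finset.univ 2 (fun i => o i i0)] at this
    exact this
  have h3 := amgm hk (fun i => o i i0 ^ 2) (fun i => sq_nonneg _) hoo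
  rw [hdet] at hd
  have hkk : (0 : ℝ) < (k : ℝ) ^ k := by
    have : (0 : ℝ) < k := by exact_mod_cast hk
    positivity
  have h4 : (∏ i, d i) ^ 2 * (∏ i, o i i0 ^ 2) * (k : ℝ) ^ k ≤ (∏ i, d i) ^ 2 := by
    calc (∏ i, d i) ^ 2 * (∏ i, o i i0 ^ 2) * (k : ℝ) ^ k =
        (∏ i, d i) ^ 2 * ((k : ℝ) ^ k * (∏ i, o i i0 ^ 2)) := by ring
      _ ≤ (∏ i, d i) ^ 2 * 1 := mul_le_mul_of_nonneg_left h3 (sq_nonneg _)
      _ = _ := mul_one _
  have h5 : c ^ 2 * (k : ℝ) ^ k ≤ (∏ i, d i) ^ 2 * (∏ i, o i i0 ^ 2) * (k : ℝ) ^ k :=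
    mul_le_mul_of_nonneg_right h2 hkk.le
  linarith

theorem not_decomposition_of_norm {k : ℕ} (hk : 0 < k) (M : Matrix (Fin k) (Fin k) ℝ) (c : ℝ)
    (hc : 0 < c) (hM : M.det ≠ 0)
    (hN : ∀ x : Fin k → ℤ, x ≠ 0 → c ≤ |∏ i, (M *ᵥ (fun j => (x j : ℝ))) i|)
    (hd : M.det ^ 2 < c ^ 2 * (k : ℝ) ^ k) : ∀ n, k ≤ n → ¬ DecompositionProperty n :=
  fun _ hn h => not_dotu_of_norm hk M c hc hN hd (initial hn h M hM)

open NumberField in
/-- a totally real number field of degree `k` and discriminant smaller than `k ^ k` excludes all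
`n ≥ k` -/
theorem not_decomposition_of_field (K : Type) [Field K] [NumberField K] [IsTotallyReal K]
    (hd : (|NumberField.discr K| : ℤ) < (Module.finrank ℚ K : ℤ) ^ (Module.finrank ℚ K)) :
    ∀ n, Module.finrank ℚ K ≤ n → ¬ DecompositionProperty n := by
  set k := Module.finrank ℚ K with hk
  have hk0 : 0 < k := Module.finrank_pos
  have hcard : Fintype.card (K →ₐ[ℚ] ℂ) = k := AlgHom.card ℚ K ℂ
  let e : Fin k ≃ (K →ₐ[ℚ] ℂ) := (Fintype.equivFinOfCardEq hcard).symm
  have hrk : Module.finrank ℤ (𝓞 K) = k := RingOfIntegers.rank K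
  let b : Module.Basis (Fin k) ℤ (𝓞 K) :=
    (Module.finBasisOfFinrankEq ℤ (𝓞 K) hrk)
  have hre : ∀ (φ : K →ₐ[ℚ] ℂ) (x : K), (((φ x).re : ℝ) : ℂ) = φ x := by
    intro φ x
    have h := IsTotallyReal.complexEmbedding_isReal (φ : K →+* ℂ)
    have h2 := RingHom.congr_fun h x
    exact Complex.conj_eq_iff_re.1 h2
  let M : Matrix (Fin k) (Fin k) ℝ := fun i j => (e i (b j : K)).re
  have hdisc : (M.det) ^ 2 = ((NumberField.discr K : ℤ) : ℝ) := by
    have h1 := Algebra.discr_localizationLocalization ℤ (nonZeroDivisors ℤ) K (Rₘ := ℚ) b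
    rw [NumberField.discr_eq_discr K b] at h1
    have h2 := Algebra.discr_eq_det_embeddingsMatrixReindex_pow_two ℚ ℂ
      (b.localizationLocalization ℚ (nonZeroDivisors ℤ) K) e
    rw [h1] at h2
    have h3 : Algebra.embeddingsMatrixReindex ℚ ℂ
        (b.localizationLocalization ℚ (nonZeroDivisors ℤ) K) e =
        (M.map (fun r : ℝ => (r : ℂ)))ᵀ := by
      ext i j
      rw [Matrix.transpose_apply, Matrix.map_apply]
      show (e j) (b.localizationLocalization ℚ (nonZeroDivisors ℤ) K i) =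
        (((e j (b i : K)).re : ℝ) : ℂ)
      rw [hre, Module.Basis.localizationLocalization_apply]
    rw [h3, Matrix.det_transpose] at h2
    have h4 : (M.map (fun r : ℝ => (r : ℂ))).det = ((M.det : ℝ) : ℂ) :=
      (RingHom.map_det Complex.ofRealHom M).symm
    rw [h4] at h2
    have h5 : (((NumberField.discr K : ℤ) : ℝ) : ℂ) = (((M.det) ^ 2 : ℝ) : ℂ) := by
      push_cast
      rw [← h2]
      simp
    exact (Complex.ofReal_injective h5).symm
  have hM : M.det ≠ 0 := by
    intro h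
    rw [h] at hdisc
    have : ((NumberField.discr K : ℤ) : ℝ) = 0 := by
      rw [← hdisc]
      ring
    exact NumberField.discr_ne_zero K (by exact_mod_cast this)
  refine not_decomposition_of_norm hk0 M 1 one_pos hM ?_ ?_
  · intro x hx
    set α : 𝓞 K := ∑ j, x j • b j with hα
    have hα0 : α ≠ 0 := by
      intro h
      apply hx
      have h2 : α = b.equivFun.symm x := by
        rw [Module.Basis.equivFun_symm_apply]
      rw [h2] at h
      exact (LinearEquiv.map_eq_zero_iff _).1 h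
    have h1 : ∀ i, (((M *ᵥ (fun j => (x j : ℝ))) i : ℝ) : ℂ) = e i (α : K) := by
      intro i
      have h2 : (α : K) = ∑ j, (x j : K) * (b j : K) := by
        rw [hα]
        refine (map_sum (algebraMap (𝓞 K) K) _ _).trans (Finset.sum_congr rfl (fun j _ => ?_))
        rw [zsmul_eq_mul, map_mul, map_intCast]
      rw [h2, map_sum]
      simp only [Matrix.mulVec, dotProduct]
      push_cast
      apply Finset.sum_congr rfl
      intro j _
      rw [map_mul, map_intCast, mul_comm]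
      congr 1
      exact hre _ _
    have h2 : (((∏ i, (M *ᵥ (fun j => (x j : ℝ))) i : ℝ)) : ℂ) =
        ((Algebra.norm ℤ α : ℤ) : ℂ) := by
      rw [Complex.ofReal_prod]
      simp only [h1]
      rw [Equiv.prod_comp e (fun σ : K →ₐ[ℚ] ℂ => σ (α : K)),
        ← Algebra.norm_eq_prod_embeddings ℚ ℂ (α : K), ← Algebra.coe_norm_int α]
      simp
    have h3 : (∏ i, (M *ᵥ (fun j => (x j : ℝ))) i : ℝ) = ((Algebra.norm ℤ α : ℤ) : ℝ) := by
      apply Complex.ofReal_injective
      rw [h2]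
      simp
    rw [h3]
    have h4 : Algebra.norm ℤ α ≠ 0 := by
      rw [Ne, Algebra.norm_eq_zero_iff]
      exact hα0
    have h5 : (1 : ℤ) ≤ |Algebra.norm ℤ α| := Int.one_le_abs h4
    exact_mod_cast h5
  · rw [hdisc]
    have h1 : NumberField.discr K < (k : ℤ) ^ k := lt_of_le_of_lt (le_abs_self _) hd
    have h2 : ((NumberField.discr K : ℤ) : ℝ) < (((k : ℤ) ^ k : ℤ) : ℝ) := by exact_mod_cast h1
    push_cast at h2
    simpa using h2

end Pool.Agent.N600.DT
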